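import Pool.Agent.WAP.StmtsT

/-!
# Squad WAP (MP_ff4683_nt), row GDF: local fields and the complex numbers are good
-/

set_option autoImplicit false

namespace Pool.Agent.WAP.H97

open Pool.Agent.WAP

theorem good_loc (F : Type) [NormedField F] [Algebra GaussianInt F] (ϖ : GaussianInt)
    (h : IsLoc F ϖ) : GoodF F := by
  have hinj : ∀ a : GaussianInt, a ≠ 0 → algebraMap GaussianInt F a ≠ 0 := by
    intro a ha h0
    have hk : ∀ n : ℕ, ϖ ^ n ∣ a ∧ ∀ b, a = ϖ ^ n * b → algebraMap GaussianInt F b = 0 := by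
      intro n
      induction n with
      | zero =>
        refine ⟨by simp, fun b hb => ?_⟩
        rw [pow_zero, one_mul] at hb
        rw [← hb]; exact h0
      | succ n ih =>
        obtain ⟨⟨b, hb⟩, h2⟩ := ih
        have h3 := h2 b hb
        have h4 : ϖ ∣ b := by
          rw [← h.lt_one b, h3]; simp
        obtain ⟨c, hc⟩ := h4
        refine ⟨⟨c, by rw [hb, hc]; ring⟩, fun b' hb' => ?_⟩
        have hϖ : ϖ ^ n ≠ 0 := pow_ne_zero _ h.prime.ne_zero
        have h5 : b = ϖ * b' := by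
          apply mul_left_cancel₀ hϖ
          rw [← hb, hb']; ring
        rw [h5, map_mul] at h3
        rcases mul_eq_zero.1 h3 with h6 | h6
        · exfalso
          have := h.uni
          rw [h6] at this
          simp at this
        · exact h6
    have hf : FiniteMultiplicity ϖ a := FiniteMultiplicity.of_not_isUnit h.prime.not_unit ha
    obtain ⟨n, hn⟩ := hf
    exact hn (hk (n + 1)).1
  have h2 : (2 : F) ≠ 0 := by
    intro h
    apply hinj 2 (by decide)
    have h3 : (2 : GaussianInt) = ((2 : ℕ) : GaussianInt) := by norm_num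
    rw [h3, map_natCast]
    exact_mod_cast h
  have h4 : (4 : F) ≠ 0 := by
    have : (4 : F) = 2 * 2 := by norm_num
    rw [this]; exact mul_ne_zero h2 h2
  refine ⟨hinj, ⟨algebraMap GaussianInt F ϖ, h.uni, (h.lt_one ϖ).2 dvd_rfl⟩, ?_⟩
  intro ε hε
  have h2' : 0 < ‖(2 : F)‖ := norm_pos_iff.2 h2
  refine ⟨min ‖(4 : F)‖ (ε * ‖(2 : F)‖), lt_min (norm_pos_iff.2 h4) (mul_pos hε h2'), ?_⟩
  intro x hx
  obtain ⟨r, hr, hr2⟩ := h.sqrt x (lt_of_lt_of_le hx (min_le_left _ _))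
  refine ⟨r, hr, ?_⟩
  have h5 : ‖r - 1‖ * ‖(2 : F)‖ < ε * ‖(2 : F)‖ :=
    lt_of_le_of_lt hr2 (lt_of_lt_of_le hx (min_le_right _ _))
  exact lt_of_mul_lt_mul_right h5 h2'.le

theorem good_cx (F : Type) [NormedField F] [Algebra GaussianInt F] (h : IsCx F) : GoodF F := by
  obtain ⟨σ, hσ⟩ := h
  refine ⟨?_, ⟨σ.symm (1 / 2), ?_, ?_⟩, ?_⟩
  · intro a ha h0
    have h1 : (Zsqrtd.norm a : ℤ) ≠ 0 := (GaussianInt.norm_pos.2 ha).ne'
    have h2 : ((Zsqrtd.norm a : ℤ) : GaussianInt) = a * star a := Zsqrtd.norm_eq_mul_conj a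
    have h3 := congrArg (algebraMap GaussianInt F) h2
    rw [map_mul, h0, zero_mul, map_intCast] at h3
    have h4 := congrArg σ h3
    rw [map_intCast, map_zero] at h4
    exact h1 (by exact_mod_cast h4)
  · rw [← hσ]
    simp
  · rw [← hσ]
    simp
    norm_num
  · intro ε hε
    refine ⟨ε, hε, fun x hx => ?_⟩
    obtain ⟨r, hr⟩ := IsAlgClosed.exists_pow_nat_eq (σ x) (n := 2) (by norm_num)
    have h1 : ‖σ x - 1‖ < ε := by
      have : σ x - 1 = σ (x - 1) := by simp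
      rw [this, hσ]; exact hx
    have h2 : (r - 1) * (r + 1) = σ x - 1 := by rw [← hr]; ring
    have h3 : ‖r - 1‖ * ‖r + 1‖ < ε := by rw [← norm_mul, h2]; exact h1
    have h4 : (2 : ℝ) ≤ ‖r + 1‖ + ‖r - 1‖ := by
      have : (2 : ℂ) = (r + 1) - (r - 1) := by ring
      calc (2 : ℝ) = ‖(2 : ℂ)‖ := by simp
        _ = ‖(r + 1) - (r - 1)‖ := by rw [← this]
        _ ≤ _ := norm_sub_le _ _
    have fin : ∀ w : ℂ, w ^ 2 = σ x → ‖w - 1‖ < ε → ∃ r : F, r ^ 2 = x ∧ ‖r - 1‖ < ε := by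
      intro w hw hw1
      refine ⟨σ.symm w, ?_, ?_⟩
      · apply σ.injective
        rw [map_pow, RingEquiv.apply_symm_apply, hw]
      · rw [← hσ]
        simpa using hw1
    by_cases h5 : 1 ≤ ‖r + 1‖
    · apply fin r hr
      nlinarith [norm_nonneg (r - 1)]
    · have h6 : 1 ≤ ‖r - 1‖ := by linarith
      apply fin (-r) (by rw [neg_sq, hr])
      have h7 : ‖-r - 1‖ = ‖r + 1‖ := by
        rw [show -r - 1 = -(r + 1) by ring, norm_neg]
      rw [h7]
      nlinarith [norm_nonneg (r + 1)]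

/-- **GDF** -/
theorem gdf : GdfStmt := by
  intro F _ _ h
  rcases h with ⟨ϖ, h⟩ | h
  · exact good_loc F ϖ h
  · exact good_cx F h

end Pool.Agent.WAP.H97
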